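import Mathlib

/-!
# The gonality of the hypercube: isoperimetry and enclosures
-/

set_option autoImplicit false

namespace Pool.Agent.H997R3.Cube

open Finset

/-- the neighbour of `w` in direction `i` -/
def nb {n : ℕ} (i : Fin n) (w : Fin n → Bool) : Fin n → Bool := Function.update w i (!(w i))

lemma nb_same {n : ℕ} (i : Fin n) (w : Fin n → Bool) : nb i w i = !(w i) := by
  simp [nb]

lemma nb_ne {n : ℕ} (i j : Fin n) (h : j ≠ i) (w : Fin n → Bool) : nb i w j = w j := by
  simp [nb, h]

lemma nb_nb {n : ℕ} (i : Fin n) (w : Fin n → Bool) : nb i (nb i w) = w := by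
  ext j
  by_cases h : j = i
  · subst h
    rw [nb_same, nb_same, Bool.not_not]
  · rw [nb_ne _ _ h, nb_ne _ _ h]

/-- the number of elements of a set of vertices -/
def sz {n : ℕ} (S : (Fin n → Bool) → Bool) : ℕ := ∑ w, if S w = true then 1 else 0

/-- the number of edges leaving a set of vertices -/
def bd {n : ℕ} (S : (Fin n → Bool) → Bool) : ℕ :=
  ∑ w, ∑ i : Fin n, if (S w = false ∧ S (nb i w) = true) then 1 else 0

lemma sum_cons {n : ℕ} {M : Type} [AddCommMonoid M] (F : (Fin (n + 1) → Bool) → M) :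
    ∑ w, F w = ∑ x : Fin n → Bool, F (Fin.cons false x) + ∑ x : Fin n → Bool, F (Fin.cons true x) := by
  rw [← (Fin.consEquiv (fun _ : Fin (n + 1) => Bool)).sum_comp, Fintype.sum_prod_type]
  rw [Fintype.sum_bool, add_comm]
  rfl

lemma nb_zero_cons {n : ℕ} (b : Bool) (x : Fin n → Bool) :
    nb 0 (Fin.cons b x : Fin (n + 1) → Bool) = Fin.cons (!b) x := by
  ext j
  refine Fin.cases ?_ (fun j => ?_) j
  · rw [nb_same]
    simp
  · rw [nb_ne _ _ (Fin.succ_ne_zero j)]
    simp

lemma nb_succ_cons {n : ℕ} (b : Bool) (x : Fin n → Bool) (i : Fin n) :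
    nb i.succ (Fin.cons b x : Fin (n + 1) → Bool) = Fin.cons b (nb i x) := by
  ext j
  refine Fin.cases ?_ (fun j => ?_) j
  · rw [nb_ne _ _ (Fin.succ_ne_zero i).symm]
    simp
  · by_cases h : j = i
    · subst h
      rw [nb_same]
      simp [nb_same]
    · rw [nb_ne _ _ (fun h' => h (Fin.succ_injective _ h'))]
      simp [nb_ne _ _ h]

lemma sz_le {n : ℕ} (S : (Fin n → Bool) → Bool) : sz S ≤ 2 ^ n := by
  unfold sz
  calc ∑ w : Fin n → Bool, (if S w = true then 1 else 0) ≤ ∑ w : Fin n → Bool, 1 := by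
        refine Finset.sum_le_sum fun w _ => ?_
        split_ifs <;> norm_num
    _ = 2 ^ n := by simp

lemma sz_cons {n : ℕ} (S : (Fin (n + 1) → Bool) → Bool) :
    sz S = sz (fun x => S (Fin.cons false x)) + sz (fun x => S (Fin.cons true x)) := by
  unfold sz
  rw [sum_cons]

lemma bd_cons {n : ℕ} (S : (Fin (n + 1) → Bool) → Bool) :
    bd S = bd (fun x => S (Fin.cons false x)) + bd (fun x => S (Fin.cons true x)) +
      (∑ x : Fin n → Bool, if (S (Fin.cons false x) = false ∧ S (Fin.cons true x) = true) then 1 else 0) +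
      (∑ x : Fin n → Bool, if (S (Fin.cons true x) = false ∧ S (Fin.cons false x) = true) then 1 else 0) := by
  unfold bd
  rw [sum_cons]
  simp_rw [Fin.sum_univ_succ, nb_zero_cons, nb_succ_cons, Finset.sum_add_distrib]
  simp only [Bool.not_false, Bool.not_true]
  ring

lemma diff_ge {n : ℕ} (A B : (Fin n → Bool) → Bool) :
    sz A ≤ sz B + ∑ x : Fin n → Bool, (if (B x = false ∧ A x = true) then 1 else 0) := by
  unfold sz
  rw [← Finset.sum_add_distrib]
  refine Finset.sum_le_sum fun x _ => ?_
  cases A x <;> cases B x <;> simp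

/-- the edge isoperimetric inequality needed -/
theorem iso : ∀ {n : ℕ} (S : (Fin n → Bool) → Bool),
    4 * sz S ≤ 2 * bd S ∨ 2 ^ n ≤ 2 * bd S ∨ 4 * 2 ^ n ≤ 2 * bd S + 4 * sz S := by
  intro n
  induction n with
  | zero =>
    intro S
    have h := sz_le S
    rw [pow_zero] at h ⊢
    omega
  | succ n ih =>
    intro S
    have h0 := ih (fun x => S (Fin.cons false x))
    have h1 := ih (fun x => S (Fin.cons true x))
    have e0 := sz_le (fun x => S (Fin.cons false x))
    have e1 := sz_le (fun x => S (Fin.cons true x))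
    have d0 := diff_ge (fun x => S (Fin.cons false x)) (fun x => S (Fin.cons true x))
    have d1 := diff_ge (fun x => S (Fin.cons true x)) (fun x => S (Fin.cons false x))
    rw [sz_cons, bd_cons, pow_succ]
    omega

/-- the enclosure lemma -/
theorem enclosure : ∀ {n : ℕ} (D : (Fin n → Bool) → ℕ),
    (∀ v, D v = 0 → ∃ S : (Fin n → Bool) → Bool, S v = true ∧ 2 * sz S < 2 ^ n ∧
      ∀ w, S w = false → (∑ i : Fin n, if S (nb i w) = true then 1 else 0) ≤ D w) →
    2 ^ n ≤ 2 * ∑ w, D w := by
  intro n
  induction n with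
  | zero =>
    intro D h
    have h1 : ∀ w, D w ≠ 0 := by
      intro w h0
      obtain ⟨S, hS, hs, _⟩ := h _ h0
      have hS' : ∀ v, S v = true := fun v => by rw [Subsingleton.elim v w]; exact hS
      have : sz S = 1 := by
        unfold sz
        simp [hS']
      omega
    have h2 : ∑ w : Fin 0 → Bool, 1 ≤ ∑ w, D w :=
      Finset.sum_le_sum fun w _ => Nat.one_le_iff_ne_zero.2 (h1 w)
    simp only [Finset.sum_const, Finset.card_univ, Fintype.card_unique, smul_eq_mul, mul_one] at h2
    rw [pow_zero]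
    omega
  | succ n ih =>
    intro D h
    by_cases hbig : ∃ S : (Fin (n + 1) → Bool) → Bool, 2 * sz S < 2 ^ (n + 1) ∧
        2 ^ (n + 1) ≤ 4 * sz S ∧
        ∀ w, S w = false → (∑ i : Fin (n + 1), if S (nb i w) = true then 1 else 0) ≤ D w
    · obtain ⟨S, h1, h2, h3⟩ := hbig
      have h4 : bd S ≤ ∑ w, D w := by
        unfold bd
        refine Finset.sum_le_sum fun w _ => ?_
        cases hw : S w
        · simpa using h3 w hw
        · simp
      have := iso S
      omega
    · have hsmall : ∀ v, D v = 0 → ∃ S : (Fin (n + 1) → Bool) → Bool, S v = true ∧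
          4 * sz S < 2 ^ (n + 1) ∧
          ∀ w, S w = false → (∑ i : Fin (n + 1), if S (nb i w) = true then 1 else 0) ≤ D w := by
        intro v hv
        obtain ⟨S, h1, h2, h3⟩ := h v hv
        refine ⟨S, h1, ?_, h3⟩
        by_contra hcon
        exact hbig ⟨S, h2, by omega, h3⟩
      have hhalf : ∀ b : Bool, 2 ^ n ≤ 2 * ∑ x : Fin n → Bool, D (Fin.cons b x) := by
        intro b
        refine ih (fun x => D (Fin.cons b x)) ?_
        intro v hv
        obtain ⟨S, h1, h2, h3⟩ := hsmall (Fin.cons b v) hv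
        refine ⟨fun x => S (Fin.cons b x), h1, ?_, ?_⟩
        · rw [sz_cons, pow_succ] at h2
          cases b <;> omega
        · intro w hw
          have h4 := h3 (Fin.cons b w) hw
          rw [Fin.sum_univ_succ] at h4
          simp_rw [nb_succ_cons] at h4
          have h5 : (∑ i : Fin n, if S (Fin.cons b (nb i w)) = true then 1 else 0) ≤
              D (Fin.cons b w) := by omega
          exact h5
      have h0 := hhalf false
      have h1 := hhalf true
      rw [sum_cons, pow_succ]
      omega

end Pool.Agent.H997R3.Cube
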