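import Pool.Agent.H997R3.Cube.Iso

/-!
# The gonality of the hypercube: the lower bound
-/

set_option autoImplicit false

namespace Pool.Agent.H997R3.Cube

open Finset

/-- the Laplacian of the cube -/
def lap {n : ℕ} (f : (Fin n → Bool) → ℤ) (w : Fin n → Bool) : ℤ := ∑ i : Fin n, (f w - f (nb i w))

lemma lap_eq {n : ℕ} (f : (Fin n → Bool) → ℤ) (w : Fin n → Bool) :
    (n : ℤ) * f w - ∑ i : Fin n, f (Function.update w i (!(w i))) = lap f w := by
  unfold lap nb
  rw [Finset.sum_sub_distrib]
  simp

/-- the involution `nb i` as an equivalence -/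
def nbEquiv {n : ℕ} (i : Fin n) : (Fin n → Bool) ≃ (Fin n → Bool) where
  toFun := nb i
  invFun := nb i
  left_inv := nb_nb i
  right_inv := nb_nb i

lemma sum_nb {n : ℕ} (i : Fin n) (F : (Fin n → Bool) → ℤ) : ∑ w, F (nb i w) = ∑ w, F w :=
  (nbEquiv i).sum_comp F

lemma sum_lap {n : ℕ} (f : (Fin n → Bool) → ℤ) : ∑ w, lap f w = 0 := by
  unfold lap
  rw [Finset.sum_comm]
  refine Finset.sum_eq_zero fun i _ => ?_
  rw [Finset.sum_sub_distrib, sum_nb i f, sub_self]

lemma lap_add {n : ℕ} (f g : (Fin n → Bool) → ℤ) (w : Fin n → Bool) :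
    lap (fun x => f x + g x) w = lap f w + lap g w := by
  unfold lap
  rw [← Finset.sum_add_distrib]
  refine Finset.sum_congr rfl fun i _ => ?_
  ring

lemma lap_sub {n : ℕ} (f g : (Fin n → Bool) → ℤ) (w : Fin n → Bool) :
    lap (fun x => f x - g x) w = lap f w - lap g w := by
  unfold lap
  rw [← Finset.sum_sub_distrib]
  refine Finset.sum_congr rfl fun i _ => ?_
  ring

lemma lap_sub_const {n : ℕ} (f : (Fin n → Bool) → ℤ) (c : ℤ) (w : Fin n → Bool) :
    lap (fun x => f x - c) w = lap f w := by
  unfold lap
  refine Finset.sum_congr rfl fun i _ => ?_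
  ring

/-- the set below a level -/
def low {n : ℕ} (f : (Fin n → Bool) → ℤ) (t : ℤ) : (Fin n → Bool) → Bool :=
  fun w => decide (f w < t)

lemma low_true {n : ℕ} (f : (Fin n → Bool) → ℤ) (t : ℤ) (w : Fin n → Bool) :
    low f t w = true ↔ f w < t := by
  simp [low]

lemma low_false {n : ℕ} (f : (Fin n → Bool) → ℤ) (t : ℤ) (w : Fin n → Bool) :
    low f t w = false ↔ t ≤ f w := by
  simp [low]

/-- if `D` and `D - lap f` are effective, the boundary of a level set of `f` has at most `deg D`
edges -/
lemma bd_low_le {n : ℕ} (D f : (Fin n → Bool) → ℤ) (hD : ∀ w, 0 ≤ D w)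
    (hE : ∀ w, 0 ≤ D w - lap f w) (t : ℤ) : (bd (low f t) : ℤ) ≤ ∑ w, D w := by
  have h1 : ∑ w, (if t ≤ f w then lap f w else 0) ≤ ∑ w, D w := by
    refine Finset.sum_le_sum fun w _ => ?_
    have := hD w
    have := hE w
    split_ifs <;> linarith
  have h2 : ∑ w, (if t ≤ f w then lap f w else 0) =
      ∑ w, ∑ i : Fin n, (if (t ≤ f w ∧ f (nb i w) < t) then f w - f (nb i w) else 0) +
      ∑ w, ∑ i : Fin n, (if (t ≤ f w ∧ t ≤ f (nb i w)) then f w - f (nb i w) else 0) := by
    rw [← Finset.sum_add_distrib]
    refine Finset.sum_congr rfl fun w _ => ?_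
    rw [← Finset.sum_add_distrib]
    by_cases hw : t ≤ f w
    · rw [if_pos hw]
      unfold lap
      refine Finset.sum_congr rfl fun i _ => ?_
      by_cases hi : f (nb i w) < t
      · rw [if_pos ⟨hw, hi⟩, if_neg (by rintro ⟨_, h⟩; linarith)]
        ring
      · rw [if_neg (by rintro ⟨_, h⟩; exact hi h), if_pos ⟨hw, not_lt.1 hi⟩]
        ring
    · rw [if_neg hw]
      symm
      refine Finset.sum_eq_zero fun i _ => ?_
      rw [if_neg (fun h => hw h.1), if_neg (fun h => hw h.1)]
      ring
  have h3 : ∑ w, ∑ i : Fin n, (if (t ≤ f w ∧ t ≤ f (nb i w)) then f w - f (nb i w) else 0) = 0 := by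
    rw [Finset.sum_comm]
    refine Finset.sum_eq_zero fun i _ => ?_
    have h4 := sum_nb i (fun w => if (t ≤ f w ∧ t ≤ f (nb i w)) then f w - f (nb i w) else 0)
    have h5 : ∑ w, (if (t ≤ f (nb i w) ∧ t ≤ f (nb i (nb i w))) then f (nb i w) - f (nb i (nb i w)) else 0)
        = - ∑ w, (if (t ≤ f w ∧ t ≤ f (nb i w)) then f w - f (nb i w) else 0) := by
      rw [← Finset.sum_neg_distrib]
      refine Finset.sum_congr rfl fun w _ => ?_
      rw [nb_nb]
      by_cases hw : t ≤ f w
      · by_cases hi : t ≤ f (nb i w)
        · rw [if_pos ⟨hi, hw⟩, if_pos ⟨hw, hi⟩]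
          ring
        · rw [if_neg (fun h => hi h.1), if_neg (fun h => hi h.2)]
          ring
      · rw [if_neg (fun h => hw h.2), if_neg (fun h => hw h.1)]
        ring
    linarith
  have h6 : (bd (low f t) : ℤ) ≤
      ∑ w, ∑ i : Fin n, (if (t ≤ f w ∧ f (nb i w) < t) then f w - f (nb i w) else 0) := by
    unfold bd
    push_cast
    refine Finset.sum_le_sum fun w _ => Finset.sum_le_sum fun i _ => ?_
    by_cases h : t ≤ f w ∧ f (nb i w) < t
    · rw [if_pos h, if_pos ⟨(low_false f t w).2 h.1, (low_true f t _).2 h.2⟩]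
      linarith [h.1, h.2]
    · rw [if_neg h, if_neg (fun h' => h ⟨(low_false f t w).1 h'.1, (low_true f t _).1 h'.2⟩)]
  linarith

/-- the sizes of level sets -/
lemma level_dichotomy {n : ℕ} (D f : (Fin n → Bool) → ℤ) (hD : ∀ w, 0 ≤ D w)
    (hE : ∀ w, 0 ≤ D w - lap f w) (hdeg : 2 * ∑ w, D w < 2 ^ n) (t : ℤ) :
    4 * sz (low f t) < 2 ^ n ∨ 3 * 2 ^ n < 4 * sz (low f t) := by
  have h1 := bd_low_le D f hD hE t
  have h2 := iso (low f t)
  have h3 : 2 * bd (low f t) < 2 ^ n := by
    have : (2 * bd (low f t) : ℤ) < 2 ^ n := by linarith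
    exact_mod_cast this
  omega

lemma sz_mono {n : ℕ} (A B : (Fin n → Bool) → Bool) (h : ∀ w, A w = true → B w = true) :
    sz A ≤ sz B := by
  unfold sz
  refine Finset.sum_le_sum fun w _ => ?_
  by_cases hA : A w = true
  · rw [if_pos hA, if_pos (h w hA)]
  · rw [if_neg hA]
    positivity

/-- union bound with complement: `A ⊆ B ∪ Cᶜ` -/
lemma sz_union {n : ℕ} (A B C : (Fin n → Bool) → Bool)
    (h : ∀ w, A w = true → B w = true ∨ C w = false) : sz A + sz C ≤ sz B + 2 ^ n := by
  have h1 : ∑ w : Fin n → Bool, (1 : ℕ) = 2 ^ n := by simp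
  unfold sz
  rw [← h1, ← Finset.sum_add_distrib, ← Finset.sum_add_distrib]
  refine Finset.sum_le_sum fun w _ => ?_
  have := h w
  cases hA : A w <;> cases hB : B w <;> cases hC : C w <;> simp_all

/-- normalised potentials: the majority value is zero -/
def Norm {n : ℕ} (f : (Fin n → Bool) → ℤ) : Prop :=
  4 * sz (low f 0) < 2 ^ n ∧ 3 * 2 ^ n < 4 * sz (low f 1)

lemma exists_norm {n : ℕ} (D f : (Fin n → Bool) → ℤ) (hD : ∀ w, 0 ≤ D w)
    (hE : ∀ w, 0 ≤ D w - lap f w) (hdeg : 2 * ∑ w, D w < 2 ^ n) :
    ∃ c : ℤ, Norm (fun w => f w - c) := by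
  have hpos : 0 < 2 ^ n := by positivity
  obtain ⟨wm, hwm⟩ := Finite.exists_min f
  obtain ⟨wM, hwM⟩ := Finite.exists_max f
  have hP : ∃ t : ℤ, 4 * sz (low f t) < 2 ^ n := by
    refine ⟨f wm, ?_⟩
    have : sz (low f (f wm)) = 0 := by
      unfold sz
      refine Finset.sum_eq_zero fun w _ => ?_
      rw [if_neg]
      rw [low_true]
      exact not_lt.2 (hwm w)
    omega
  have hB : ∃ b : ℤ, ∀ t : ℤ, 4 * sz (low f t) < 2 ^ n → t ≤ b := by
    refine ⟨f wM, fun t ht => ?_⟩
    by_contra hcon
    have : sz (low f t) = 2 ^ n := by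
      unfold sz
      calc ∑ w : Fin n → Bool, (if low f t w = true then 1 else 0) = ∑ w : Fin n → Bool, 1 := by
            refine Finset.sum_congr rfl fun w _ => ?_
            rw [if_pos]
            rw [low_true]
            have := hwM w
            omega
        _ = 2 ^ n := by simp
    omega
  obtain ⟨t0, ht0, ht1⟩ := Int.exists_greatest_of_bdd hB hP
  refine ⟨t0, ?_, ?_⟩
  · have : low (fun w => f w - t0) 0 = low f t0 := by
      funext w
      simp [low]
    rw [this]
    exact ht0
  · have h1 : low (fun w => f w - t0) 1 = low f (t0 + 1) := by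
      funext w
      simp only [low, decide_eq_decide]
      omega
    rw [h1]
    rcases level_dichotomy D f hD hE hdeg (t0 + 1) with h | h
    · have := ht1 _ h
      omega
    · exact h

/-- normalised potentials relating effective divisors are determined by the divisor -/
lemma norm_unique {n : ℕ} (f g : (Fin n → Bool) → ℤ) (hf : Norm f) (hg : Norm g)
    (h : ∀ w, lap f w = lap g w) : f = g := by
  have key : ∀ f g : (Fin n → Bool) → ℤ, Norm f → Norm g → (∀ w, lap f w = lap g w) →
      ∀ w, f w ≤ g w := by
    intro f g hf hg h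
    by_contra hcon
    push Not at hcon
    obtain ⟨w1, hw1⟩ := hcon
    set k : (Fin n → Bool) → ℤ := fun w => f w - g w with hk
    have hlap : ∀ w, lap k w = 0 := fun w => by rw [hk, lap_sub, h w, sub_self]
    -- all level sets of k have empty boundary
    have hb : bd (low k 1) = 0 := by
      have := bd_low_le (fun _ => 0) k (fun _ => le_rfl) (fun w => by rw [hlap w]; norm_num) 1
      simp only [Finset.sum_const_zero] at this
      omega
    have hi := iso (low k 1)
    rw [hb] at hi
    have hle := sz_le (low k 1)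
    have hpos : 0 < 2 ^ n := by positivity
    have hcase : sz (low k 1) = 0 ∨ sz (low k 1) = 2 ^ n := by omega
    rcases hcase with h0 | h0
    · -- k ≥ 1 everywhere
      have hall : ∀ w, 1 ≤ k w := by
        intro w
        by_contra hw
        have h2 : low k 1 w = true := by
          rw [low_true]
          omega
        have h3 : (if low k 1 w = true then 1 else 0) ≤ sz (low k 1) :=
          Finset.single_le_sum (f := fun w => if low k 1 w = true then 1 else 0)
            (fun _ _ => by positivity) (Finset.mem_univ w)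
        rw [if_pos h2] at h3
        omega
      have h4 := sz_mono (low f 1) (low g 0) (by
        intro w hw
        rw [low_true] at hw ⊢
        have := hall w
        simp only [hk] at this
        omega)
      have := hf.2
      have := hg.1
      omega
    · -- k < 1 everywhere, contradiction with w1
      have h3 : sz (low k 1) < 2 ^ n := by
        have h1 : ∑ w : Fin n → Bool, (1 : ℕ) = 2 ^ n := by simp
        rw [← h1]
        unfold sz
        refine Finset.sum_lt_sum (fun w _ => by split_ifs <;> norm_num) ⟨w1, Finset.mem_univ _, ?_⟩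
        rw [if_neg]
        · norm_num
        · rw [low_true]
          simp only [hk]
          omega
      omega
  funext w
  exact le_antisymm (key f g hf hg h w) (key g f hg hf (fun w => (h w).symm) w)

/-- the lower bound for the gonality of the cube -/
theorem lower {n : ℕ} (D : (Fin n → Bool) → ℤ) (hD : ∀ w, 0 ≤ D w)
    (hrank : ∀ v, ∃ f : (Fin n → Bool) → ℤ, ∀ w, 0 ≤ D w - (if w = v then 1 else 0) - lap f w) :
    2 ^ n ≤ 2 * ∑ w, D w := by
  by_contra hcon
  have hdeg : 2 * ∑ w, D w < 2 ^ n := not_le.1 hcon
  have hpos : 0 < 2 ^ n := by positivity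
  -- the set of normalised potentials
  set P : Set ((Fin n → Bool) → ℤ) := {f | Norm f ∧ ∀ w, 0 ≤ D w - lap f w} with hP
  have hsum : ∀ f : (Fin n → Bool) → ℤ, ∑ w, (D w - lap f w) = ∑ w, D w := by
    intro f
    rw [Finset.sum_sub_distrib, sum_lap, sub_zero]
  have hfin : P.Finite := by
    have himg : ((fun f : (Fin n → Bool) → ℤ => fun w => D w - lap f w) '' P).Finite := by
      refine (Set.finite_Icc (0 : (Fin n → Bool) → ℤ) (fun _ => ∑ w, D w)).subset ?_
      rintro _ ⟨f, hf, rfl⟩
      refine ⟨fun w => hf.2 w, fun w => ?_⟩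
      have h1 : D w - lap f w ≤ ∑ w, (D w - lap f w) :=
        Finset.single_le_sum (f := fun w => D w - lap f w) (fun w _ => hf.2 w) (Finset.mem_univ w)
      rw [hsum] at h1
      exact h1
    refine Set.Finite.of_finite_image himg ?_
    intro f hf g hg hfg
    refine norm_unique f g hf.1 hg.1 fun w => ?_
    have := congrFun hfg w
    simp only at this
    linarith
  have h0P : (fun _ => 0) ∈ P := by
    refine ⟨⟨?_, ?_⟩, fun w => ?_⟩
    · have : sz (low (fun _ : Fin n → Bool => (0 : ℤ)) 0) = 0 := by
        unfold sz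
        refine Finset.sum_eq_zero fun w _ => ?_
        simp [low]
      omega
    · have : sz (low (fun _ : Fin n → Bool => (0 : ℤ)) 1) = 2 ^ n := by
        unfold sz
        simp [low]
      omega
    · have : lap (fun _ : Fin n → Bool => (0 : ℤ)) w = 0 := by
        unfold lap
        simp
      rw [this, sub_zero]
      exact hD w
  obtain ⟨f, hfP, hmax⟩ := Set.exists_max_image P (fun f => ∑ w, f w) hfin ⟨_, h0P⟩
  set E : (Fin n → Bool) → ℤ := fun w => D w - lap f w with hE
  have hE0 : ∀ w, 0 ≤ E w := hfP.2
  have hEdeg : 2 * ∑ w, E w < 2 ^ n := by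
    rw [hE, hsum]
    exact hdeg
  have hcast : (2 : ℤ) ^ n = ((2 ^ n : ℕ) : ℤ) := by push_cast; rfl
  -- apply the enclosure lemma to E
  have hmain := enclosure (fun w => (E w).toNat) (by
    intro v hv
    have hEv : E v = 0 := by
      have := hE0 v
      have hv' : (E v).toNat = 0 := hv
      omega
    obtain ⟨h, hh⟩ := hrank v
    have hh0 : ∀ w, 0 ≤ D w - lap h w := by
      intro w
      have := hh w
      split_ifs at this <;> linarith
    have hhv : 1 ≤ D v - lap h v := by
      have := hh v
      rw [if_pos rfl] at this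
      linarith
    obtain ⟨c, hc⟩ := exists_norm D h hD hh0 hdeg
    set k : (Fin n → Bool) → ℤ := fun w => h w - c with hk
    have hlapk : ∀ w, lap k w = lap h w := fun w => lap_sub_const h c w
    set g : (Fin n → Bool) → ℤ := fun w => k w - f w with hg
    have hlapg : ∀ w, lap g w = lap k w - lap f w := fun w => lap_sub k f w
    have hEg : ∀ w, 0 ≤ E w - lap g w := by
      intro w
      rw [hlapg, hlapk, hE]
      have := hh0 w
      simp only
      linarith
    -- g is normalised
    have hg0 : 4 * sz (low g 0) < 2 ^ n := by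
      have h1 := sz_union (low g 0) (low k 0) (low f 1) (by
        intro w hw
        rw [low_true] at hw
        rw [low_true, low_false]
        simp only [hg] at hw
        omega)
      have h2 := hc.1
      have h3 := hfP.1.2
      rcases level_dichotomy E g hE0 hEg hEdeg 0 with h4 | h4
      · exact h4
      · omega
    -- the positive part
    set gp : (Fin n → Bool) → ℤ := fun w => max (g w) 0 with hgp
    have hEgp : ∀ w, 0 ≤ E w - lap gp w := by
      intro w
      rcases le_or_gt 0 (g w) with hw | hw
      · have h1 : lap gp w ≤ lap g w := by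
          unfold lap
          refine Finset.sum_le_sum fun i _ => ?_
          simp only [hgp]
          rw [max_eq_left hw]
          have := le_max_left (g (nb i w)) 0
          linarith
        have := hEg w
        linarith
      · have h1 : lap gp w ≤ 0 := by
          unfold lap
          refine Finset.sum_nonpos fun i _ => ?_
          simp only [hgp]
          rw [max_eq_right hw.le]
          have := le_max_right (g (nb i w)) 0
          linarith
        have := hE0 w
        linarith
    set fp : (Fin n → Bool) → ℤ := fun w => f w + gp w with hfp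
    have hlapfp : ∀ w, lap fp w = lap f w + lap gp w := fun w => lap_add f gp w
    have hDfp : ∀ w, 0 ≤ D w - lap fp w := by
      intro w
      rw [hlapfp]
      have := hEgp w
      simp only [hE] at this
      linarith
    have hfpP : fp ∈ P := by
      refine ⟨⟨?_, ?_⟩, hDfp⟩
      · have h1 := sz_mono (low fp 0) (low f 0) (by
          intro w hw
          rw [low_true] at hw ⊢
          simp only [hfp, hgp] at hw
          have := le_max_right (g w) 0
          omega)
        have := hfP.1.1
        omega
      · have h1 := sz_union (low k 1) (low fp 1) (low f 1) (by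
          intro w hw
          rw [low_true] at hw
          rw [low_true, low_false]
          simp only [hfp, hgp, hg]
          omega)
        have h2 := hc.2
        have h3 := hfP.1.2
        rcases level_dichotomy D fp hD hDfp hdeg 1 with h4 | h4
        · omega
        · exact h4
    have hgp0 : ∀ w, gp w = 0 := by
      have h1 := hmax fp hfpP
      simp only [hfp] at h1
      rw [Finset.sum_add_distrib] at h1
      have h2 : ∀ w ∈ (Finset.univ : Finset (Fin n → Bool)), 0 ≤ gp w := fun w _ => le_max_right _ _
      have h3 : ∑ w, gp w = 0 := le_antisymm (by linarith) (Finset.sum_nonneg h2)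
      intro w
      exact (Finset.sum_eq_zero_iff_of_nonneg h2).1 h3 w (Finset.mem_univ w)
    have hgle : ∀ w, g w ≤ 0 := by
      intro w
      have h1 := hgp0 w
      have h2 := le_max_left (g w) 0
      simp only [hgp] at h1
      omega
    refine ⟨low g 0, ?_, by omega, ?_⟩
    · rw [low_true]
      by_contra hgv
      have hgv' : g v = 0 := le_antisymm (hgle v) (not_lt.1 hgv)
      have h1 : 0 ≤ lap g v := by
        unfold lap
        refine Finset.sum_nonneg fun i _ => ?_
        have := hgle (nb i v)
        linarith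
      rw [hlapg, hlapk] at h1
      have h2 : E v = D v - lap f v := rfl
      linarith
    · intro w hw
      rw [low_false] at hw
      have hgw : g w = 0 := le_antisymm (hgle w) hw
      have h1 : ((∑ i : Fin n, if low g 0 (nb i w) = true then 1 else 0 : ℕ) : ℤ) ≤ lap g w := by
        unfold lap
        push_cast
        refine Finset.sum_le_sum fun i _ => ?_
        have h2 := hgle (nb i w)
        by_cases h3 : low g 0 (nb i w) = true
        · rw [if_pos h3]
          rw [low_true] at h3
          omega
        · rw [if_neg h3]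
          omega
      have h2 := hEg w
      have h3 := hE0 w
      show (∑ i : Fin n, if low g 0 (nb i w) = true then 1 else 0 : ℕ) ≤ (E w).toNat
      omega)
  have hfinal : ((∑ w, (E w).toNat : ℕ) : ℤ) = ∑ w, E w := by
    push_cast
    refine Finset.sum_congr rfl fun w _ => ?_
    exact Int.toNat_of_nonneg (hE0 w)
  have : (2 : ℤ) ^ n ≤ 2 * ∑ w, E w := by
    rw [← hfinal, hcast]
    exact_mod_cast hmain
  linarith

end Pool.Agent.H997R3.Cube
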