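import Pool.Agent.H997R3.Cube.Main

/-!
# The gonality of the hypercube: the upper bound
-/

set_option autoImplicit false

namespace Pool.Agent.H997R3.Cube

open Finset

/-- the parity character -/
def par {n : ℕ} (w : Fin n → Bool) : ℤ := ∏ i : Fin n, (if w i = true then -1 else 1)

lemma par_nb {n : ℕ} (i : Fin n) (w : Fin n → Bool) : par (nb i w) = - par w := by
  unfold par
  rw [← Finset.mul_prod_erase Finset.univ _ (Finset.mem_univ i),
    ← Finset.mul_prod_erase Finset.univ (fun i => if w i = true then (-1 : ℤ) else 1)
      (Finset.mem_univ i)]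
  have h1 : ∏ x ∈ Finset.univ.erase i, (if nb i w x = true then (-1 : ℤ) else 1) =
      ∏ x ∈ Finset.univ.erase i, (if w x = true then (-1 : ℤ) else 1) := by
    refine Finset.prod_congr rfl fun j hj => ?_
    rw [nb_ne i j (Finset.ne_of_mem_erase hj)]
  rw [h1, nb_same]
  cases w i <;> simp

lemma par_cases {n : ℕ} (w : Fin n → Bool) : par w = 1 ∨ par w = -1 := by
  unfold par
  refine Finset.prod_induction (fun i => if w i = true then (-1 : ℤ) else 1)
    (fun z => z = 1 ∨ z = -1) ?_ (Or.inl rfl) ?_
  · rintro a b (rfl | rfl) (rfl | rfl) <;> simp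
  · intro i _
    split_ifs <;> simp

lemma nb_injective {n : ℕ} (w : Fin n → Bool) (i j : Fin n) (h : nb i w = nb j w) : i = j := by
  by_contra hne
  have h1 := congrFun h i
  rw [nb_same, nb_ne j i hne] at h1
  cases hw : w i <;> simp [hw] at h1

theorem upper {n : ℕ} (hn : 1 ≤ n) : ∃ D : (Fin n → Bool) → ℕ,
    (∑ x, D x) = 2 ^ (n - 1) ∧
    ∀ v : Fin n → Bool, ∃ f : (Fin n → Bool) → ℤ, ∀ w : Fin n → Bool,
      0 ≤ (D w : ℤ) - (if w = v then 1 else 0) - lap f w := by
  refine ⟨fun w => if par w = 1 then 1 else 0, ?_, ?_⟩
  · have i0 : Fin n := ⟨0, hn⟩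
    have h1 := (nbEquiv i0).sum_comp (fun w : Fin n → Bool => if par w = 1 then (1 : ℕ) else 0)
    have h2 : ∑ w : Fin n → Bool, (1 : ℕ) = 2 ^ n := by simp
    have h3 : ∑ w : Fin n → Bool, (if par (nbEquiv i0 w) = 1 then (1 : ℕ) else 0) +
        ∑ w : Fin n → Bool, (if par w = 1 then (1 : ℕ) else 0) = 2 ^ n := by
      rw [← h2, ← Finset.sum_add_distrib]
      refine Finset.sum_congr rfl fun w _ => ?_
      have h4 : par (nbEquiv i0 w) = - par w := par_nb i0 w
      rw [h4]
      rcases par_cases w with h | h <;> rw [h] <;> norm_num
    have h5 : 2 ^ n = 2 * 2 ^ (n - 1) := by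
      rw [← pow_succ']
      congr 1
      omega
    have h6 : ∑ w : Fin n → Bool, (if par w = 1 then (1 : ℕ) else 0) = 2 ^ (n - 1) := by omega
    exact h6
  · intro v
    rcases par_cases v with hv | hv
    · refine ⟨fun _ => 0, fun w => ?_⟩
      have h1 : lap (fun _ : Fin n → Bool => (0 : ℤ)) w = 0 := by
        unfold lap
        simp
      rw [h1]
      by_cases hw : w = v
      · subst hw
        simp [hv]
      · rw [if_neg hw]
        have h4 : (0 : ℤ) ≤ ((if par w = 1 then 1 else 0 : ℕ) : ℤ) := by positivity
        have h5 : (0 : ℤ) ≤ ((if par w = 1 then 1 else 0 : ℕ) : ℤ) - 0 - 0 := by linarith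
        exact h5
    · refine ⟨fun w => if w = v then -1 else 0, fun w => ?_⟩
      by_cases hw : w = v
      · subst hw
        have h1 : lap (fun x => if x = w then (-1 : ℤ) else 0) w ≤ -1 := by
          unfold lap
          have h2 : ∀ i : Fin n, (if w = w then (-1 : ℤ) else 0) -
              (if nb i w = w then (-1 : ℤ) else 0) = -1 := by
            intro i
            have h3 : nb i w ≠ w := by
              intro h
              have := congrFun h i
              rw [nb_same] at this
              cases hh : w i <;> simp [hh] at this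
            rw [if_pos rfl, if_neg h3]
            ring
          rw [Finset.sum_congr rfl (fun i _ => h2 i)]
          simp only [Finset.sum_const, Finset.card_univ, Fintype.card_fin, nsmul_eq_mul]
          have : (1 : ℤ) ≤ n := by exact_mod_cast hn
          linarith
        rw [if_pos rfl]
        have h4 : (0 : ℤ) ≤ ((if par w = 1 then 1 else 0 : ℕ) : ℤ) := by positivity
        linarith
      · rw [if_neg hw]
        have h1 : lap (fun x => if x = v then (-1 : ℤ) else 0) w =
            ∑ i : Fin n, (if nb i w = v then (1 : ℤ) else 0) := by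
          unfold lap
          refine Finset.sum_congr rfl fun i _ => ?_
          beta_reduce
          rw [if_neg hw]
          split_ifs <;> norm_num
        rw [h1]
        beta_reduce
        by_cases hex : ∃ i, nb i w = v
        · obtain ⟨i, hi⟩ := hex
          have h2 : ∑ j : Fin n, (if nb j w = v then (1 : ℤ) else 0) = 1 := by
            rw [Finset.sum_eq_single i]
            · rw [if_pos hi]
            · intro j _ hj
              rw [if_neg]
              intro h
              exact hj (nb_injective w j i (h.trans hi.symm))
            · simp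
          have h3 : par w = 1 := by
            have := par_nb i w
            rw [hi, hv] at this
            linarith
          rw [h2, h3]
          norm_num
        · have h2 : ∑ j : Fin n, (if nb j w = v then (1 : ℤ) else 0) = 0 := by
            refine Finset.sum_eq_zero fun j _ => ?_
            rw [if_neg (fun h => hex ⟨j, h⟩)]
          rw [h2]
          have h4 : (0 : ℤ) ≤ ((if par w = 1 then 1 else 0 : ℕ) : ℤ) := by positivity
          linarith

end Pool.Agent.H997R3.Cube
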